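import Pool.Agent.H6.DiamB

namespace Pool.Agent.Results.MP_5980c2_co.Q1
open Finset Filter Pool.Agent.H6.Diam

/-- `G` has diameter at most two and maximum degree at most `k`. -/
def Adm {n : ℕ} (k : ℝ) (G : SimpleGraph (Fin n)) : Prop :=
  (∀ u v, u = v ∨ G.Adj u v ∨ ∃ w, G.Adj u w ∧ G.Adj w v) ∧ ∀ v, ((G.neighborSet v).ncard : ℝ) ≤ k

/-- `e_2(n,k)`: least number of edges of such a graph of order `n`. -/
noncomputable def e2 (n : ℕ) (k : ℝ) : ℕ :=
  sInf {m | ∃ G : SimpleGraph (Fin n), Adm k G ∧ G.edgeSet.ncard = m}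

lemma nc {n : ℕ} (G : SimpleGraph (Fin n)) [DecidableRel G.Adj] (v : Fin n) :
    (G.neighborSet v).ncard = G.degree v := by
  rw [← SimpleGraph.card_neighborFinset_eq_degree, ← Set.ncard_coe_finset, SimpleGraph.coe_neighborFinset]

lemma ec {n : ℕ} (G : SimpleGraph (Fin n)) [DecidableRel G.Adj] :
    G.edgeSet.ncard = G.edgeFinset.card := by
  rw [← Set.ncard_coe_finset, SimpleGraph.coe_edgeFinset]

lemma rook (n : ℕ) (hn : 30 ≤ n) : ∃ G : SimpleGraph (Fin n), Adm (3 / 7 * n) G := by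
  classical
  let G : SimpleGraph (Fin n) := ⟨fun u v => u ≠ v ∧ (u.1 / 5 = v.1 / 5 ∨ u.1 % 5 = v.1 % 5),
    ⟨fun u v h => ⟨h.1.symm, by have := h.2; omega⟩⟩, ⟨fun u h => h.1 rfl⟩⟩
  have key : ∀ u v : Fin n, u.1 / 5 < v.1 / 5 → G.Adj u v ∨ ∃ w, G.Adj u w ∧ G.Adj w v := by
    intro u v h
    have hv := v.2
    by_cases e : u.1 % 5 = v.1 % 5
    · exact Or.inl ⟨fun e' => by rw [e'] at h; omega, Or.inr e⟩
    · refine Or.inr ⟨⟨5 * (u.1 / 5) + v.1 % 5, by omega⟩, ⟨fun e' => ?_, ?_⟩, ⟨fun e' => ?_, ?_⟩⟩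
      · have := congrArg Fin.val e'; simp only at this; omega
      · simp only; omega
      · have := congrArg Fin.val e'; simp only at this; omega
      · simp only; omega
  refine ⟨G, fun u v => ?_, fun v => ?_⟩
  · by_cases e : u = v
    · exact Or.inl e
    right
    rcases lt_trichotomy (u.1 / 5) (v.1 / 5) with h | h | h
    · exact key u v h
    · exact Or.inl ⟨e, Or.inl h⟩
    · rcases key v u h with h | ⟨w, h1, h2⟩
      · exact Or.inl h.symm
      · exact Or.inr ⟨w, h2.symm, h1.symm⟩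
  · rw [nc]
    have a1 : G.neighborFinset v ⊆ univ.filter (fun u : Fin n => v.1 / 5 = u.1 / 5) ∪
        univ.filter (fun u : Fin n => v.1 % 5 = u.1 % 5) := by
      intro u hu
      have := ((SimpleGraph.mem_neighborFinset _ _ _).1 hu).2
      simpa using this
    have a2 : (univ.filter (fun u : Fin n => v.1 / 5 = u.1 / 5)).card ≤ (range 5).card := by
      refine card_le_card_of_injOn (fun u => u.1 % 5) (fun u _ => by simp; omega) ?_
      intro a ha b hb e
      simp only [coe_filter, mem_univ, true_and, Set.mem_ofPred_eq] at ha hb e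
      exact Fin.ext (by omega)
    have a3 : (univ.filter (fun u : Fin n => v.1 % 5 = u.1 % 5)).card ≤ (range (n / 5 + 1)).card := by
      refine card_le_card_of_injOn (fun u => u.1 / 5) (fun u _ => by have := u.2; simp; omega) ?_
      intro a ha b hb e
      simp only [coe_filter, mem_univ, true_and, Set.mem_ofPred_eq] at ha hb e
      exact Fin.ext (by omega)
    have a4 := (card_le_card a1).trans (card_union_le _ _)
    rw [card_range] at a2 a3
    rw [SimpleGraph.card_neighborFinset_eq_degree] at a4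
    have : 7 * G.degree v ≤ 3 * n := by omega
    have : (7 * G.degree v : ℝ) ≤ 3 * n := by exact_mod_cast this
    linarith

/-- symmetric point-line incidence of the Fano plane -/
def M (a b : ℕ) : Prop := (a + b) % 7 = 0 ∨ (a + b) % 7 = 1 ∨ (a + b) % 7 = 3

instance : DecidableRel M := fun a b => by unfold M; infer_instance

lemma M1 : ∀ a < 7, ∀ b < 7, ∃ p < 7, M a p ∧ M p b := by decide
lemma M2 : ∀ a < 7, ((range 7).filter (M a)).card = 3 := by decide

lemma upper (t : ℕ) : e2 (7 * t) (3 / 7 * (7 * t : ℕ)) ≤ 3 * (7 * t) := by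
  classical
  let G : SimpleGraph (Fin (7 * t)) := ⟨fun u v => u ≠ v ∧ (u.1 < 7 ∨ v.1 < 7) ∧ M (u.1 % 7) (v.1 % 7),
    ⟨fun u v h => ⟨h.1.symm, h.2.1.symm, by have := h.2.2; unfold M at *; omega⟩⟩, ⟨fun u h => h.1 rfl⟩⟩
  have deg : ∀ v, G.degree v ≤ 3 * t := by
    intro v
    have : (G.neighborFinset v).card ≤ (range t ×ˢ (range 7).filter (M (v.1 % 7))).card := by
      refine card_le_card_of_injOn (fun u => (u.1 / 7, u.1 % 7)) (fun u hu => ?_) ?_
      · have h := ((SimpleGraph.mem_neighborFinset _ _ _).1 (mem_coe.1 hu)).2.2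
        have := u.2
        simp only [coe_product, coe_range, coe_filter, mem_range, Set.mem_prod, Set.mem_Iio, Set.mem_ofPred_eq]
        exact ⟨by omega, by omega, h⟩
      · intro a _ b _ e
        simp only [Prod.mk.injEq] at e
        exact Fin.ext (by omega)
    rw [card_product, card_range, M2 _ (by omega), SimpleGraph.card_neighborFinset_eq_degree] at this
    omega
  have adm : Adm (3 / 7 * (7 * t : ℕ)) G := by
    refine ⟨fun u v => ?_, fun v => ?_⟩
    · by_cases e : u = v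
      · exact Or.inl e
      right
      obtain ⟨p, hp, h1, h2⟩ := M1 (u.1 % 7) (by omega) (v.1 % 7) (by omega)
      have hu := u.2
      have pp : p % 7 = p := by omega
      by_cases e1 : u.1 = p
      · exact Or.inl ⟨e, Or.inl (by omega), by rw [e1, pp]; exact h2⟩
      by_cases e2 : v.1 = p
      · exact Or.inl ⟨e, Or.inr (by omega), by rw [e2, pp]; exact h1⟩
      exact Or.inr ⟨⟨p, by omega⟩, ⟨fun e' => e1 (congrArg Fin.val e'), Or.inr hp, by simpa [pp] using h1⟩,
        ⟨fun e' => e2 (congrArg Fin.val e').symm, Or.inl hp, by simpa [pp] using h2⟩⟩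
    · rw [nc]
      have : (G.degree v : ℝ) ≤ 3 * t := by exact_mod_cast deg v
      push_cast; linarith
  refine le_trans (b := G.edgeSet.ncard) (Nat.sInf_le ⟨G, adm, rfl⟩) ?_
  rw [ec]
  set C : Finset (Fin (7 * t)) := univ.filter (fun u => u.1 < 7) with hC
  have a1 : G.edgeFinset ⊆ C.biUnion (fun p => G.incidenceFinset p) := by
    intro e he
    induction e using Sym2.ind with
    | _ u v =>
      have h : G.Adj u v := by simpa using he
      simp only [mem_biUnion, SimpleGraph.mem_incidenceFinset, SimpleGraph.mk'_mem_incidenceSet_iff]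
      rcases h.2.1 with h' | h'
      · exact ⟨u, by simp [hC, h'], h, Or.inl rfl⟩
      · exact ⟨v, by simp [hC, h'], h, Or.inr rfl⟩
  have a2 : (C.biUnion (fun p => G.incidenceFinset p)).card ≤ C.card * (3 * t) :=
    card_biUnion_le_card_mul _ _ _ fun p _ => by
      rw [SimpleGraph.card_incidenceFinset_eq_degree]; exact deg p
  have a3 : C.card ≤ (range 7).card :=
    card_le_card_of_injOn (fun u => u.1) (fun u hu => by simpa [hC] using hu) fun a _ b _ e => Fin.ext e
  rw [card_range] at a3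
  have a4 := card_le_card a1
  have a5 : C.card * (3 * t) ≤ 7 * (3 * t) := Nat.mul_le_mul_right _ a3
  omega

lemma low (n : ℕ) (hn : 10 ^ 8 ≤ n) (h7 : n % 7 = 2) : 30001 * n < 10000 * e2 n (3 / 7 * n) := by
  classical
  obtain ⟨G0, h0⟩ := rook n (by omega)
  obtain ⟨G, hG, he⟩ := Nat.sInf_mem (s := {m | ∃ G : SimpleGraph (Fin n), Adm (3 / 7 * n) G ∧
    G.edgeSet.ncard = m}) ⟨_, G0, h0, rfl⟩
  unfold e2
  rw [← he, ec]
  have := lower G (3 * n / 7) (fun v => by
    have a := hG.2 v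
    rw [nc] at a
    have b : (7 * G.degree v : ℝ) ≤ 3 * n := by linarith
    have c : 7 * G.degree v ≤ 3 * n := by exact_mod_cast b
    omega) hG.1 (by rw [Fintype.card_fin]; omega) (by rw [Fintype.card_fin]; omega)
  rwa [Fintype.card_fin] at this

theorem result :
    (∀ n : ℕ, 30 ≤ n → ∃ G : SimpleGraph (Fin n), Adm (3 / 7 * n) G) ∧
    (∀ n : ℕ, n % 7 = 0 → e2 n (3 / 7 * n) ≤ 3 * n) ∧
    (∀ n : ℕ, 10 ^ 8 ≤ n → n % 7 = 2 → 30001 * n < 10000 * e2 n (3 / 7 * n)) ∧
    (¬ ∃ L : ℝ, Tendsto (fun n : ℕ => (e2 n (3 / 7 * n) : ℝ) / n) atTop (nhds L)) ∧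
    ¬ ∀ c : ℝ, 0 < c → c < 1 →
      ∃ L : ℝ, Tendsto (fun n : ℕ => (e2 n (c * n) : ℝ) / n) atTop (nhds L) := by
  have main : ¬ ∃ L : ℝ, Tendsto (fun n : ℕ => (e2 n (3 / 7 * n) : ℝ) / n) atTop (nhds L) := by
    rintro ⟨L, hL⟩
    have t1 : Tendsto (fun t : ℕ => 7 * t) atTop atTop :=
      tendsto_atTop_mono (fun t => by simp only [id]; omega) tendsto_id
    have t2 : Tendsto (fun t : ℕ => 7 * t + 2) atTop atTop :=
      tendsto_atTop_mono (fun t => by simp only [id]; omega) tendsto_id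
    have a1 : L ≤ 3 := le_of_tendsto' (hL.comp t1) fun t => by
      have : (e2 (7 * t) (3 / 7 * (7 * t : ℕ)) : ℝ) ≤ 3 * (7 * t : ℕ) := by exact_mod_cast upper t
      exact div_le_of_le_mul₀ (by positivity) (by norm_num) this
    have a2 : (30001 / 10000 : ℝ) ≤ L := ge_of_tendsto (hL.comp t2) (by
      filter_upwards [eventually_ge_atTop (10 ^ 8)] with t ht
      have h := low (7 * t + 2) (by omega) (by omega)
      have h' : (30001 * (7 * t + 2 : ℕ) : ℝ) < 10000 * e2 (7 * t + 2) (3 / 7 * (7 * t + 2 : ℕ)) := by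
        exact_mod_cast h
      have p : (0 : ℝ) < (7 * t + 2 : ℕ) := by positivity
      simp only [Function.comp]
      rw [le_div_iff₀ p]
      linarith)
    linarith
  refine ⟨rook, fun n hn => ?_, low, main, fun h => main (h _ (by norm_num) (by norm_num))⟩
  obtain ⟨t, rfl⟩ : ∃ t, n = 7 * t := ⟨n / 7, by omega⟩
  exact upper t

end Pool.Agent.Results.MP_5980c2_co.Q1
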